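import Mathlib
import Pool.Agent.Helper74.SB.Basic

namespace Pool.Agent.Results.MP_680cfa_co.BlockPatterns

open Finset Pool.Agent.Helper74.SB Asymptotics Filter

theorem exists_N0 (m : ℕ) : ∃ N0 : ℕ, ∀ R, N0 ≤ R → 2 * (m * rothNumberNat R) ≤ R := by
  have h := rothNumberNat_isLittleO_id
  have hc : (0 : ℝ) < 1 / (2 * (m + 1)) := by positivity
  have h1 := h.bound hc
  rw [eventually_atTop] at h1
  obtain ⟨N0, hN0⟩ := h1
  refine ⟨N0, fun R hR => ?_⟩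
  have h2 := hN0 R hR
  simp only [Real.norm_natCast] at h2
  have h3 : (2 * ((m : ℝ) + 1)) * (rothNumberNat R : ℝ) ≤ R := by
    have h4 := mul_le_mul_of_nonneg_left h2 (show (0 : ℝ) ≤ 2 * ((m : ℝ) + 1) by positivity)
    calc (2 * ((m : ℝ) + 1)) * (rothNumberNat R : ℝ) ≤
        2 * ((m : ℝ) + 1) * (1 / (2 * (m + 1)) * R) := h4
      _ = R := by field_simp
  have h5 : (2 * (m * rothNumberNat R) : ℝ) ≤ R := by
    have : (0 : ℝ) ≤ rothNumberNat R := Nat.cast_nonneg _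
    nlinarith
  exact_mod_cast h5

theorem iterate {S : Set ℕ} (hS : ThreeAPFree S) (q : ℕ → ℕ) (hq : ∀ j, 2 ≤ q j) (m t N0 : ℕ)
    (hfin : ∀ j, ∃ F : Finset (Set ℕ), F.card ≤ m ∧ ∀ i, block S (∏ s ∈ range j, q s) i ∈ F)
    (hN0 : ∀ R, N0 ≤ R → 2 * (m * rothNumberNat R) ≤ R) (ht : N0 ≤ 2 ^ t) (n : ℕ) :
    ∀ N, 2 ^ n * (ne S 1 (N * ∏ s ∈ range (n * t), q s)).card ≤
      (ne S (∏ s ∈ range (n * t), q s) N).card * ∏ s ∈ range (n * t), q s := by
  induction n with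
  | zero =>
    intro N
    simp
  | succ n ih =>
    intro N
    obtain ⟨R, hRdef⟩ : ∃ R, R = ∏ s ∈ range t, q (n * t + s) := ⟨_, rfl⟩
    have hprod : ∏ s ∈ range ((n + 1) * t), q s = (∏ s ∈ range (n * t), q s) * R := by
      rw [add_mul, one_mul, Finset.prod_range_add, hRdef]
    have hR2 : 2 ^ t ≤ R := by
      rw [hRdef]
      calc 2 ^ t = ∏ s ∈ range t, 2 := by simp
        _ ≤ ∏ s ∈ range t, q (n * t + s) := Finset.prod_le_prod' fun i _ => hq _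
    have hR0 : 0 < R := lt_of_lt_of_le (by positivity) hR2
    obtain ⟨F, hF, hFb⟩ := hfin (n * t)
    have h1 := step hS hR0 F hF hFb (hN0 R (ht.trans hR2)) N
    have h2 := ih (N * R)
    rw [hprod]
    have h3 : N * ((∏ s ∈ range (n * t), q s) * R) = N * R * ∏ s ∈ range (n * t), q s := by ring
    rw [h3]
    calc 2 ^ (n + 1) * (ne S 1 (N * R * ∏ s ∈ range (n * t), q s)).card =
        2 * (2 ^ n * (ne S 1 (N * R * ∏ s ∈ range (n * t), q s)).card) := by ring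
      _ ≤ 2 * ((ne S (∏ s ∈ range (n * t), q s) (N * R)).card * ∏ s ∈ range (n * t), q s) :=
        Nat.mul_le_mul_left 2 h2
      _ = (2 * (ne S (∏ s ∈ range (n * t), q s) (N * R)).card) * ∏ s ∈ range (n * t), q s := by
        ring
      _ ≤ ((ne S ((∏ s ∈ range (n * t), q s) * R) N).card * R) * ∏ s ∈ range (n * t), q s :=
        Nat.mul_le_mul_right _ h1
      _ = _ := by ring

/-- Let `a` be a strictly increasing sequence whose range has no three terms in arithmetic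
progression. Suppose that along a scale `ℓ_j = q_0 ⋯ q_(j-1)` with `2 ≤ q_j ≤ Q` the aligned
blocks of length `ℓ_j` of the range show at most `m` different patterns, for each `j`. Then
`a_n ≥ C n ^ (1 + ε)` for some `ε, C > 0` and all `n ≥ 1`. -/
theorem result (a : ℕ → ℕ) (ha : StrictMono a) (hfree : ThreeAPFree (Set.range a))
    (q : ℕ → ℕ) (Q m : ℕ) (hq : ∀ j, 2 ≤ q j ∧ q j ≤ Q)
    (hfin : ∀ j, (Set.range fun i => block (Set.range a) (∏ s ∈ range j, q s) i).encard ≤ m) :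
    ∃ ε : ℝ, 0 < ε ∧ ∃ C : ℝ, 0 < C ∧ ∃ N : ℕ, ∀ n : ℕ, N ≤ n →
      C * (n : ℝ) ^ (1 + ε) ≤ (a n : ℝ) := by
  classical
  have hfin' : ∀ j, ∃ F : Finset (Set ℕ), F.card ≤ m ∧
      ∀ i, block (Set.range a) (∏ s ∈ range j, q s) i ∈ F := by
    intro j
    have h1 := hfin j
    have h2 : (Set.range fun i => block (Set.range a) (∏ s ∈ range j, q s) i).Finite :=
      Set.finite_of_encard_le_coe h1
    refine ⟨h2.toFinset, ?_, fun i => ?_⟩
    · rw [h2.encard_eq_coe_toFinset_card] at h1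
      exact_mod_cast h1
    · rw [Set.Finite.mem_toFinset]
      exact ⟨i, rfl⟩
  obtain ⟨N0, hN0⟩ := exists_N0 m
  obtain ⟨t, ht, ht0⟩ : ∃ t, N0 ≤ 2 ^ t ∧ 0 < t :=
    ⟨N0 + 1, le_of_lt (lt_trans (Nat.lt_succ_self _) (Nat.lt_two_pow_self)), Nat.succ_pos _⟩
  have hQ : 2 ≤ Q := (hq 0).1.trans (hq 0).2
  have hQr : (2 : ℝ) ≤ Q := by exact_mod_cast hQ
  have hlogQ : 0 < Real.log Q := Real.log_pos (by linarith)
  have htr : (0 : ℝ) < t := by exact_mod_cast ht0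
  obtain ⟨δ, hδ⟩ : ∃ δ : ℝ, δ = Real.log 2 / (t * Real.log Q) := ⟨_, rfl⟩
  have hδ0 : 0 < δ := by
    rw [hδ]
    have := Real.log_pos (show (1 : ℝ) < 2 by norm_num)
    positivity
  have hQδ : ((Q : ℝ) ^ t) ^ δ = 2 := by
    rw [← Real.rpow_natCast, ← Real.rpow_mul (by positivity), Real.rpow_def_of_pos (by positivity),
      hδ]
    rw [show Real.log Q * (t * (Real.log 2 / (t * Real.log Q))) = Real.log 2 by
      field_simp]
    exact Real.exp_log (by norm_num)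
  refine ⟨δ, hδ0, 1 / (Q : ℝ) ^ t, by positivity, 1, fun k hk => ?_⟩
  obtain ⟨ℓ, hℓ⟩ : ∃ ℓ : ℕ → ℕ, ℓ = fun n => ∏ s ∈ range (n * t), q s := ⟨_, rfl⟩
  have hℓ0 : ℓ 0 = 1 := by rw [hℓ]; simp
  have hℓs : ∀ n, ℓ (n + 1) ≤ ℓ n * Q ^ t ∧ 2 * ℓ n ≤ ℓ (n + 1) := by
    intro n
    have hprod : ℓ (n + 1) = ℓ n * ∏ s ∈ range t, q (n * t + s) := by
      rw [hℓ]
      show ∏ s ∈ range ((n + 1) * t), q s = _
      rw [add_mul, one_mul, Finset.prod_range_add]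
    rw [hprod]
    constructor
    · apply Nat.mul_le_mul_left
      calc ∏ s ∈ range t, q (n * t + s) ≤ ∏ s ∈ range t, Q :=
            Finset.prod_le_prod' fun i _ => (hq _).2
        _ = Q ^ t := by simp
    · rw [mul_comm 2]
      apply Nat.mul_le_mul_left
      calc 2 = 2 ^ 1 := rfl
        _ ≤ 2 ^ t := Nat.pow_le_pow_right (by norm_num) ht0
        _ = ∏ s ∈ range t, 2 := by simp
        _ ≤ ∏ s ∈ range t, q (n * t + s) := Finset.prod_le_prod' fun i _ => (hq _).1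
  have hℓ2 : ∀ n, 2 ^ n ≤ ℓ n := by
    intro n
    induction n with
    | zero => rw [hℓ0]; norm_num
    | succ n ih =>
      calc 2 ^ (n + 1) = 2 * 2 ^ n := by ring
        _ ≤ 2 * ℓ n := Nat.mul_le_mul_left 2 ih
        _ ≤ ℓ (n + 1) := (hℓs n).2
  have hℓQ : ∀ n, ℓ n ≤ (Q ^ t) ^ n := by
    intro n
    induction n with
    | zero => rw [hℓ0]; norm_num
    | succ n ih =>
      calc ℓ (n + 1) ≤ ℓ n * Q ^ t := (hℓs n).1
        _ ≤ (Q ^ t) ^ n * Q ^ t := Nat.mul_le_mul_right _ ih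
        _ = (Q ^ t) ^ (n + 1) := (pow_succ _ _).symm
  have hex : ∃ n, a k < ℓ n := ⟨a k, lt_of_lt_of_le Nat.lt_two_pow_self (hℓ2 _)⟩
  obtain ⟨n, hn, hmin⟩ : ∃ n, a k < ℓ n ∧ ∀ n' < n, ℓ n' ≤ a k :=
    ⟨Nat.find hex, Nat.find_spec hex, fun n' h => not_lt.mp (Nat.find_min hex h)⟩
  have hcount : k + 1 ≤ (ne (Set.range a) 1 (ℓ n)).card := by
    have hsub : (range (k + 1)).image a ⊆ ne (Set.range a) 1 (ℓ n) := by
      intro x hx
      obtain ⟨i, hi, rfl⟩ := Finset.mem_image.mp hx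
      rw [mem_ne]
      have hik : a i ≤ a k := ha.monotone (Nat.lt_succ_iff.mp (Finset.mem_range.mp hi))
      exact ⟨lt_of_le_of_lt hik hn, 0, by norm_num, ⟨i, by simp⟩⟩
    have := Finset.card_le_card hsub
    rwa [Finset.card_image_of_injective _ ha.injective, Finset.card_range] at this
  have hit := iterate hfree q (fun j => (hq j).1) m t N0 hfin' hN0 ht n 1
  rw [one_mul] at hit
  have hit2 : 2 ^ n * (k + 1) ≤ ℓ n := by
    have h1 : (ne (Set.range a) (∏ s ∈ range (n * t), q s) 1).card ≤ 1 := by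
      calc _ ≤ (range 1).card := Finset.card_le_card (by
            intro i hi
            exact Finset.mem_range.mpr (mem_ne.mp hi).1)
        _ = 1 := by simp
    calc 2 ^ n * (k + 1) ≤ 2 ^ n * (ne (Set.range a) 1 (ℓ n)).card :=
          Nat.mul_le_mul_left _ hcount
      _ ≤ (ne (Set.range a) (∏ s ∈ range (n * t), q s) 1).card * ∏ s ∈ range (n * t), q s := by
          rw [hℓ]
          exact hit
      _ ≤ 1 * ∏ s ∈ range (n * t), q s := Nat.mul_le_mul_right _ h1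
      _ = ℓ n := by rw [one_mul, hℓ]
  have hn0 : n ≠ 0 := by
    intro h
    rw [h, hℓ0] at hn
    have : k ≤ a k := ha.le_apply
    omega
  obtain ⟨n', rfl⟩ := Nat.exists_eq_succ_of_ne_zero hn0
  have h5 : ℓ (n' + 1) ≤ a k * Q ^ t :=
    (hℓs n').1.trans (Nat.mul_le_mul_right _ (hmin n' (Nat.lt_succ_self _)))
  have h6 : 2 ^ (n' + 1) * (k + 1) ≤ a k * Q ^ t := hit2.trans h5
  have h7 : k + 1 ≤ (Q ^ t) ^ (n' + 1) := by
    calc k + 1 ≤ 2 ^ (n' + 1) * (k + 1) := Nat.le_mul_of_pos_left _ (by positivity)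
      _ ≤ ℓ (n' + 1) := hit2
      _ ≤ _ := hℓQ _
  have h8 : ((k : ℝ) + 1) ^ δ ≤ 2 ^ (n' + 1) := by
    have h9 : ((k : ℝ) + 1) ≤ ((Q : ℝ) ^ t) ^ (n' + 1) := by exact_mod_cast h7
    calc ((k : ℝ) + 1) ^ δ ≤ (((Q : ℝ) ^ t) ^ (n' + 1)) ^ δ :=
          Real.rpow_le_rpow (by positivity) h9 hδ0.le
      _ = (((Q : ℝ) ^ t) ^ δ) ^ (n' + 1) := by
          have hy : (0 : ℝ) ≤ (Q : ℝ) ^ t := by positivity
          generalize (Q : ℝ) ^ t = y at hy
          rw [← Real.rpow_natCast y (n' + 1), ← Real.rpow_natCast (y ^ δ) (n' + 1),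
            ← Real.rpow_mul hy, ← Real.rpow_mul hy, mul_comm]
      _ = 2 ^ (n' + 1) := by rw [hQδ]
  have h10 : ((2 : ℝ) ^ (n' + 1)) * (k + 1) ≤ a k * (Q : ℝ) ^ t := by exact_mod_cast h6
  have h11 : (k : ℝ) ^ (1 + δ) ≤ ((k : ℝ) + 1) * ((k : ℝ) + 1) ^ δ := by
    calc (k : ℝ) ^ (1 + δ) ≤ ((k : ℝ) + 1) ^ (1 + δ) :=
          Real.rpow_le_rpow (by positivity) (by linarith) (by linarith)
      _ = ((k : ℝ) + 1) * ((k : ℝ) + 1) ^ δ := by
          rw [Real.rpow_add (by positivity), Real.rpow_one]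
  rw [one_div, inv_mul_le_iff₀ (by positivity)]
  calc (k : ℝ) ^ (1 + δ) ≤ ((k : ℝ) + 1) * ((k : ℝ) + 1) ^ δ := h11
    _ ≤ ((k : ℝ) + 1) * 2 ^ (n' + 1) := mul_le_mul_of_nonneg_left h8 (by positivity)
    _ = (2 : ℝ) ^ (n' + 1) * (k + 1) := mul_comm _ _
    _ ≤ a k * (Q : ℝ) ^ t := h10
    _ = (Q : ℝ) ^ t * a k := mul_comm _ _

end Pool.Agent.Results.MP_680cfa_co.BlockPatterns
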