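import Pool.Agent.STN.Mu

/-!
# Stanley sequences of growth `n ^ (1 + ε)` for every `ε > 0` (MP_680cfa_co, Q1)

For every `ε > 0` there are a Stanley sequence `a` and a constant `C` with `a n ≤ C * n ^ (1 + ε)`
for all `n ≥ 1`.
-/

set_option autoImplicit false

namespace Pool.Agent.Results.MP_680cfa_co.NearLinearGrowth

/-- For every `ε > 0` there is a Stanley sequence `a` (strictly increasing, free of three-term
progressions, each term after an initial block the least integer keeping the set free of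
three-term progressions) with `a n ≤ C * n ^ (1 + ε)` for some constant `C` and all `n ≥ 1`. -/
theorem result (ε : ℝ) (hε : 0 < ε) : ∃ a : ℕ → ℕ,
    StrictMono a ∧
    ThreeAPFree (Set.range a) ∧
    (∃ k : ℕ, ∀ n : ℕ, k ≤ n → ∀ m : ℕ, a n < m → m < a (n + 1) →
      ¬ ThreeAPFree (insert m (a '' Set.Iic n))) ∧
    ∃ C : ℝ, 0 < C ∧ ∀ n : ℕ, 1 ≤ n → (a n : ℝ) ≤ C * (n : ℝ) ^ (1 + ε) :=
  Pool.Agent.STN.main ε hε

end Pool.Agent.Results.MP_680cfa_co.NearLinearGrowth
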